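import Mathlib

set_option autoImplicit false

/-!
# Divergent and obvious orbits in `G/Γ`, `G ≤ SL_ι(ℝ)`: the definitions used in the statements
-/

namespace Pool.Agent.W_MP_bb6588_S

open Matrix Filter Topology

variable {ι : Type} [Fintype ι] [DecidableEq ι]

/-- The subgroup `SL_ι(ℤ)` of `SL_ι(ℝ)`. -/
def SLZ (ι : Type) [Fintype ι] [DecidableEq ι] : Subgroup (Matrix.SpecialLinearGroup ι ℝ) :=
  (Matrix.SpecialLinearGroup.map (n := ι) (Int.castRingHom ℝ)).range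

/-- The real matrix with the same entries as the rational matrix `X`. -/
def toR (X : Matrix ι ι ℚ) : Matrix ι ι ℝ := X.map fun q : ℚ => (q : ℝ)

/-- The real span `W ⊗ ℝ` of a space `W` of rational matrices. -/
def realSpan (W : Submodule ℚ (Matrix ι ι ℚ)) : Submodule ℝ (Matrix ι ι ℝ) :=
  Submodule.span ℝ (toR '' (W : Set (Matrix ι ι ℚ)))

/-- All elements of the subspace `E` are diagonal in one basis defined over the field `K`. -/
def IsDiagonalizable {K : Type} [Field K] (E : Submodule K (Matrix ι ι K)) : Prop :=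
  ∃ R : (Matrix ι ι K)ˣ, ∀ z ∈ E, ∃ d : ι → K,
    z = (R : Matrix ι ι K) * Matrix.diagonal d * ((R⁻¹ : (Matrix ι ι K)ˣ) : Matrix ι ι K)

/-- The space `𝔤` of rational matrices is a simple Lie algebra over `ℚ` for the bracket
`[x, y] = x y - y x`: it is closed under the bracket, not abelian, and its only ideals are `0` and
`𝔤`. -/
def IsSimpleLie (𝔤 : Submodule ℚ (Matrix ι ι ℚ)) : Prop :=
  (∀ x ∈ 𝔤, ∀ y ∈ 𝔤, x * y - y * x ∈ 𝔤) ∧
  (∃ x ∈ 𝔤, ∃ y ∈ 𝔤, x * y ≠ y * x) ∧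
  ∀ I : Submodule ℚ (Matrix ι ι ℚ), I ≤ 𝔤 →
    (∀ x ∈ 𝔤, ∀ y ∈ I, x * y - y * x ∈ I) → I = ⊥ ∨ I = 𝔤

/-- For `E` a space of real matrices let `D = {d ∈ G : d = exp z, z ∈ E}`. The orbit `D g Γ` in
`G/Γ` is divergent: for every compact `K ⊆ G/Γ` the `z ∈ E` with `exp(z) g Γ ∈ K` form a bounded
set. -/
def IsDivergent (G : Subgroup (Matrix.SpecialLinearGroup ι ℝ)) (Γ : Subgroup G)
    (E : Submodule ℝ (Matrix ι ι ℝ)) (g : G) : Prop :=
  ∀ K : Set (G ⧸ Γ), IsCompact K → ∃ R : ℝ, ∀ z ∈ E, ∀ d : G,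
    ((d : Matrix.SpecialLinearGroup ι ℝ) : Matrix ι ι ℝ) = NormedSpace.exp z →
      ((d * g : G) : G ⧸ Γ) ∈ K → ∀ i j, |z i j| ≤ R

/-- The homomorphism `ρ : G → GL_m(ℝ)` is a `ℚ`-representation: the entries of `ρ g` are
polynomials with rational coefficients in the entries of `g`. -/
def IsRationalRep {G : Subgroup (Matrix.SpecialLinearGroup ι ℝ)} {m : ℕ}
    (ρ : G →* GL (Fin m) ℝ) : Prop :=
  ∃ P : Fin m → Fin m → MvPolynomial (ι × ι) ℚ,
    ∀ (g : G) (a b : Fin m),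
      (ρ g : Matrix (Fin m) (Fin m) ℝ) a b =
        MvPolynomial.aeval (fun p : ι × ι =>
          ((g : Matrix.SpecialLinearGroup ι ℝ) : Matrix ι ι ℝ) p.1 p.2) (P a b)

/-- The orbit of `g Γ` under `D = {d ∈ G : d = exp z, z ∈ E}` is obvious: there are finitely many
`ℚ`-representations `ρ i` of `G` and nonzero rational vectors `v i` such that for every sequence
`d k = exp (z k) → ∞` in `D` there are an index `i` and a subsequence along which
`ρ i (d k g) (v i) → 0`. -/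
def IsObvious (G : Subgroup (Matrix.SpecialLinearGroup ι ℝ)) (E : Submodule ℝ (Matrix ι ι ℝ))
    (g : G) : Prop :=
  ∃ (l : ℕ) (m : Fin l → ℕ) (ρ : ∀ i : Fin l, G →* GL (Fin (m i)) ℝ)
    (v : ∀ i : Fin l, Fin (m i) → ℚ),
    (∀ i, IsRationalRep (ρ i)) ∧ (∀ i, v i ≠ 0) ∧
    ∀ (z : ℕ → Matrix ι ι ℝ) (d : ℕ → G), (∀ k, z k ∈ E) →
      (∀ k, ((d k : Matrix.SpecialLinearGroup ι ℝ) : Matrix ι ι ℝ) = NormedSpace.exp (z k)) →
      Tendsto z atTop (cocompact (Matrix ι ι ℝ)) →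
      ∃ (i : Fin l) (φ : ℕ → ℕ), StrictMono φ ∧
        Tendsto (fun k => (ρ i (d (φ k) * g) : Matrix (Fin (m i)) (Fin (m i)) ℝ) *ᵥ
          (fun a => (v i a : ℝ))) atTop (𝓝 0)

end Pool.Agent.W_MP_bb6588_S
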