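import Mathlib
import Pool.Agent.W_MP_bb6588_S.Stmt

set_option autoImplicit false

/-!
# The example `SL₂(ℝ) × SL₂(ℝ)`
-/

namespace Pool.Agent.W_MP_bb6588_S

open Matrix

/-- The space `𝔤` of rational matrices is a semisimple Lie algebra over `ℚ`: it is closed under the
bracket and has no nonzero abelian ideal. -/
def IsSemisimpleLie {ι : Type} [Fintype ι] [DecidableEq ι]
    (𝔤 : Submodule ℚ (Matrix ι ι ℚ)) : Prop :=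
  (∀ x ∈ 𝔤, ∀ y ∈ 𝔤, x * y - y * x ∈ 𝔤) ∧
  ∀ I : Submodule ℚ (Matrix ι ι ℚ), I ≤ 𝔤 →
    (∀ x ∈ 𝔤, ∀ y ∈ I, x * y - y * x ∈ I) → (∀ x ∈ I, ∀ y ∈ I, x * y = y * x) → I = ⊥

/-- The group `SL₂(ℝ) × SL₂(ℝ)` of block diagonal matrices with blocks of determinant `1`. -/
def IsSL2xSL2 (G : Subgroup (Matrix.SpecialLinearGroup (Fin 2 ⊕ Fin 2) ℝ)) : Prop :=
  ∀ g : Matrix.SpecialLinearGroup (Fin 2 ⊕ Fin 2) ℝ,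
    g ∈ G ↔ ∃ A B : Matrix (Fin 2) (Fin 2) ℝ, A.det = 1 ∧ B.det = 1 ∧
      (g : Matrix (Fin 2 ⊕ Fin 2) (Fin 2 ⊕ Fin 2) ℝ) = Matrix.fromBlocks A 0 0 B

/-- The Lie algebra `sl₂(ℚ) × sl₂(ℚ)`. -/
def IssL2xsL2 (𝔤 : Submodule ℚ (Matrix (Fin 2 ⊕ Fin 2) (Fin 2 ⊕ Fin 2) ℚ)) : Prop :=
  ∀ x : Matrix (Fin 2 ⊕ Fin 2) (Fin 2 ⊕ Fin 2) ℚ,
    x ∈ 𝔤 ↔ ∃ A B : Matrix (Fin 2) (Fin 2) ℚ, A.trace = 0 ∧ B.trace = 0 ∧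
      x = Matrix.fromBlocks A 0 0 B

/-- The line spanned by `diag(1, -1, 0, 0)`: the Lie algebra of the subgroup
`D = {(diag(e^t, e^{-t}), 1)}` of `SL₂(ℝ) × SL₂(ℝ)`. -/
def lineE : Submodule ℝ (Matrix (Fin 2 ⊕ Fin 2) (Fin 2 ⊕ Fin 2) ℝ) :=
  Submodule.span ℝ {Matrix.diagonal (Sum.elim ![1, -1] ![0, 0])}

/-- The diagonal matrices `diag(a, -a, b, -b)` in `sl₂(ℚ) × sl₂(ℚ)`. -/
def diagS : Submodule ℚ (Matrix (Fin 2 ⊕ Fin 2) (Fin 2 ⊕ Fin 2) ℚ) :=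
  Submodule.span ℚ {Matrix.diagonal (Sum.elim ![1, -1] ![0, 0]),
    Matrix.diagonal (Sum.elim ![0, 0] ![1, -1])}

end Pool.Agent.W_MP_bb6588_S
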